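import Pool.Agent.helper27.SY.Spec
import Pool.Agent.helper23.SX.CRS

/-!
# Project sy, module WCR
-/

set_option autoImplicit false

open Finset ArithmeticFunction

namespace Pool.Agent.SY

open Pool.Agent.SX Pool.Agent.helper85.BVP

theorem WCR_chkH (m L L' : ℕ) (h : chkH m L L' = true) (i : ℕ) (hi : i ≤ 1800) (hm : m ≤ i) :
    dig L (i / 2) ≤ dig L' i := by
  have h1 := CRS_allB 1801 _ h i (by omega)
  simp only [Bool.or_eq_true] at h1
  rcases h1 with h1 | h1
  · have : i < m := by simpa [Nat.blt_eq] using h1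
    omega
  · exact Nat.ble_eq.mp h1

theorem WCR_chkCn (m L L' : ℕ) (h : chkCn m L L' = true) (i : ℕ) (hi : i ≤ 1800) (hm : m ≤ i) :
    (i ≤ 900 → dig L (2 * i) ≤ dig L' i) ∧
    (900 < i → 600 * 1099511627776 ≤ dig L' i * 3 ^ (i / 60)) := by
  have h1 := CRS_allB 1801 _ h i (by omega)
  simp only [Bool.or_eq_true] at h1
  rcases h1 with h1 | h1
  · have : i < m := by simpa [Nat.blt_eq] using h1
    omega
  · constructor
    · intro h2
      have h3 : Nat.ble i 900 = true := Nat.ble_eq.mpr h2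
      rw [h3] at h1
      exact Nat.ble_eq.mp h1
    · intro h2
      have h3 : Nat.ble i 900 = false := by
        rw [← Bool.not_eq_true, Nat.ble_eq]
        omega
      rw [h3] at h1
      exact Nat.ble_eq.mp h1

theorem WCR_le {a b : ℕ} (h : a ≤ b) : (a : ℝ) / 2 ^ 40 ≤ (b : ℝ) / 2 ^ 40 :=
  div_le_div_of_nonneg_right (by exact_mod_cast h) (by positivity)

/-- WCR: change of the unit. -/
theorem WCR (hWMB : WMB_stmt) : WCR_stmt := by
  obtain ⟨mL, mU, -⟩ := hWMB
  refine ⟨?_, ?_, ?_⟩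
  · intro w L U L' U' hT hL hU
    have hb : ∀ i : ℕ, i / 2 * (2 * w) ≤ i * w := by
      intro i
      have h1 : i / 2 * 2 ≤ i := Nat.div_mul_le_self i 2
      calc i / 2 * (2 * w) = i / 2 * 2 * w := by ring
        _ ≤ i * w := Nat.mul_le_mul_right w h1
    refine ⟨fun i hi => ?_, fun i h60 hi => ?_⟩
    · exact mL (60 * w) (i / 2 * (2 * w)) (i * w) _ _ (hb i)
        (WCR_le (WCR_chkH 0 L L' hL i (by omega) (by omega))) (hT.1 (i / 2) (by omega))
    · exact mU (60 * w) (i / 2 * (2 * w)) (i * w) _ _ (hb i)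
        (WCR_le (WCR_chkH 60 U U' hU i (by omega) h60)) (hT.2 (i / 2) (by omega) (by omega))
  · intro w L U L' U' _ hT hTail hL hU
    have hb : ∀ i : ℕ, i / 60 * (120 * w) ≤ i * (2 * w) := by
      intro i
      have h1 : i / 60 * 60 ≤ i := Nat.div_mul_le_self i 60
      calc i / 60 * (120 * w) = i / 60 * 60 * (2 * w) := by ring
        _ ≤ i * (2 * w) := Nat.mul_le_mul_right _ h1
    refine ⟨fun i hi => ?_, fun i h60 hi => ?_⟩
    · obtain ⟨c1, c2⟩ := WCR_chkCn 0 L L' hL i (by omega) (by omega)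
      rcases Nat.lt_or_ge 900 i with h | h
      · exact mL (120 * w) (i / 60 * (120 * w)) _ _ _ (hb i) (CRS_div L' i (i / 60) (c2 h))
          (hTail (i / 60) (by omega)).1
      · exact mL (120 * w) (2 * i * w) _ _ _ (le_of_eq (by ring)) (WCR_le (c1 h))
          (hT.1 (2 * i) (by omega))
    · obtain ⟨c1, c2⟩ := WCR_chkCn 60 U U' hU i (by omega) h60
      rcases Nat.lt_or_ge 900 i with h | h
      · exact mU (120 * w) (i / 60 * (120 * w)) _ _ _ (hb i) (CRS_div U' i (i / 60) (c2 h))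
          (hTail (i / 60) (by omega)).2
      · exact mU (120 * w) (2 * i * w) _ _ _ (le_of_eq (by ring)) (WCR_le (c1 h))
          (hT.2 (2 * i) (by omega) (by omega))
  · intro u L U L' U' _ hT hTail hL hU
    have hb : ∀ i : ℕ, i / 30 * (60 * u) ≤ i * (2 * u) := by
      intro i
      have h1 : i / 30 * 30 ≤ i := Nat.div_mul_le_self i 30
      calc i / 30 * (60 * u) = i / 30 * 30 * (2 * u) := by ring
        _ ≤ i * (2 * u) := Nat.mul_le_mul_right _ h1
    refine ⟨fun i hi => ?_, fun i h30 hi => ?_⟩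
    · obtain ⟨c1, c2⟩ := CRS_chk 0 L L' hL i (by omega) (by omega)
      rcases Nat.lt_or_ge 450 i with h | h
      · exact mL (60 * u) (i / 30 * (60 * u)) _ _ _ (hb i) (CRS_div L' i (i / 30) (c2 h))
          (hTail (i / 30) (by omega)).1
      · exact mL (60 * u) (2 * i * u) _ _ _ (le_of_eq (by ring)) (WCR_le (c1 h))
          (hT.1 (2 * i) (by omega))
    · obtain ⟨c1, c2⟩ := CRS_chk 30 U U' hU i (by omega) h30
      rcases Nat.lt_or_ge 450 i with h | h
      · exact mU (60 * u) (i / 30 * (60 * u)) _ _ _ (hb i) (CRS_div U' i (i / 30) (c2 h))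
          (hTail (i / 30) (by omega)).2
      · exact mU (60 * u) (2 * i * u) _ _ _ (le_of_eq (by ring)) (WCR_le (c1 h))
          (hT.2 (2 * i) (by omega) (by omega))

end Pool.Agent.SY
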